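import Mathlib
import Pool.Agent.T2H01.YM.Tor0
import Pool.Agent.T2H01.YM.Ext
import Pool.Agent.TH618.YM.Cartan

/-!
# Lattice Yang-Mills theory: the correlations of the energy density at almost every coupling

Wilson's lattice gauge theory on `ℤ^d` with gauge group an arbitrary closed subgroup `G` of `U(N)` at
the inverse coupling `β > 0`, in the infinite volume. The energy density at `x` is the sum of
`Re tr (1 - U_p)` over the plaquettes of the unit cube at `x`, each divided by the number of the unit
cubes which contain it. There is a monotone function `u`, the internal energy, with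
`0 ≤ u(β) ≤ d (d - 1) N ^ 2 / (2 β)`, such that at every `β` at which `u` is differentiable, that is at
almost every coupling, the fluctuations of the energy density are bounded in momentum space by the
specific heat `- u'(β)`, in all infinite volume limits: the energy densities smeared with small test
functions are sub-Gaussian with this variance, `∑_x cov (F, e_x) ^ 2 ≤ - u'(β) Var F` for every
continuous observable `F`, the correlations of the energy of a time slice are summable and the energy
of a time slice and the local observables at the time distance `t` have a covariance of order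
`1 / √t`. On the periodic lattices the fluctuations are largest at zero momentum at every `β`.
-/

open MeasureTheory Matrix Filter
open scoped Matrix.Norms.Frobenius Topology ContDiff

namespace Pool.Agent.Results.MP_7f377f_mp.EnergyCorrelations

set_option linter.unusedSectionVars false
set_option linter.unusedVariables false

noncomputable section

/-- Complex `N × N` matrices. -/
abbrev Mt (N : ℕ) := Matrix (Fin N) (Fin N) ℂ

/-- The unitary group `U(N)`. -/
abbrev UU (N : ℕ) := Matrix.unitaryGroup (Fin N) ℂ

/-- The matrix of an element of a subgroup of `U(N)`. -/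
def mt {N : ℕ} {G : Subgroup (UU N)} (g : G) : Mt N := ((g : UU N) : Mt N)

/-- Links of the periodic lattice `(ℤ/l)^d`: base point and direction. -/
abbrev Link (d l : ℕ) := (Fin d → ZMod l) × Fin d

/-- Links of the lattice `ℤ^d`: base point and direction. -/
abbrev LinkZ (d : ℕ) := (Fin d → ℤ) × Fin d

section

variable {N n d l : ℕ} {G : Subgroup (UU N)}

/-- The product of the link variables around the plaquette at `x` in the directions `i`, `j`. -/
def plaq (U : Link d l → G) (x : Fin d → ZMod l) (i j : Fin d) : G :=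
  U (x, i) * U (x + Pi.single i 1, j) * (U (x + Pi.single j 1, i))⁻¹ * (U (x, j))⁻¹

/-- The Wilson action `∑_p Re tr (1 - U_p)`, the sum over the plaquettes. -/
def action [NeZero l] (U : Link d l → G) : ℝ :=
  ∑ x : Fin d → ZMod l, ∑ i : Fin d, ∑ j : Fin d,
    if i < j then (trace (1 - mt (plaq U x i j))).re else 0

/-- The periodic extension of a configuration. -/
def per (U : Link d l → G) : LinkZ d → G := fun e => U (fun i => (e.1 i : ZMod l), e.2)

/-- The expectation of `F` in the lattice Yang-Mills theory on `(ℤ/l)^d`, `μ` being the Haar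
measure. -/
def expect (l : ℕ) [NeZero l] [MeasurableSpace G] (μ : Measure G) (β : ℝ)
    (F : (LinkZ d → G) → ℝ) : ℝ :=
  (∫ U : Link d l → G, F (per U) * Real.exp (-(β * action U)) ∂(Measure.pi fun _ => μ)) /
    ∫ U : Link d l → G, Real.exp (-(β * action U)) ∂(Measure.pi fun _ => μ)

/-- The covariance of `F` and `H` in the lattice Yang-Mills theory on `(ℤ/l)^d`. -/
def covT (l : ℕ) [NeZero l] [MeasurableSpace G] (μ : Measure G) (β : ℝ)
    (F H : (LinkZ d → G) → ℝ) : ℝ :=
  expect l μ β (fun V => F V * H V) - expect l μ β F * expect l μ β H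

/-- `ν` is an infinite volume limit (weak limit along a subsequence) of the theories on the tori of
even side at inverse coupling `β`. -/
structure IsInfVol [MeasurableSpace G] (μ : Measure G) (β : ℝ)
    (ν : Measure (LinkZ d → G)) : Prop where
  prob : IsProbabilityMeasure ν
  lim : ∃ s : ℕ → ℕ, Tendsto s atTop atTop ∧ ∀ F : (LinkZ d → G) → ℝ, Continuous F →
    Tendsto (fun j => expect (2 * (s j + 1)) μ β F) atTop (𝓝 (∫ V, F V ∂ν))

/-- The product of the link variables around the plaquette of `ℤ^d` at `x` in the directions `i`,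
`j`. -/
def plaqZ (V : LinkZ d → G) (x : Fin d → ℤ) (i j : Fin d) : G :=
  V (x, i) * V (x + Pi.single i 1, j) * (V (x + Pi.single j 1, i))⁻¹ * (V (x, j))⁻¹

/-- The vertex of the unit cube at the origin whose coordinates in the directions of `S` are `1`. -/
def corner (S : Finset (Fin d)) : Fin d → ℤ := fun k => if k ∈ S then 1 else 0

/-- The energy density: the sum of `Re tr (1 - U_p)` over the plaquettes `p` of the unit cube with
the lowest vertex `x`, each divided by the number `2 ^ (d - 2)` of the unit cubes which contain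
it. -/
def energy (V : LinkZ d → G) (x : Fin d → ℤ) : ℝ :=
  (1 / 2) ^ (d - 2) * ∑ i : Fin d, ∑ j : Fin d, if i < j then
    ∑ S ∈ (({i, j} : Finset (Fin d))ᶜ).powerset,
      (trace (1 - mt (plaqZ V (x + corner S) i j))).re else 0

/-- The energy on the torus of side `l` with the profile `h`. -/
def smear [NeZero l] (h : (Fin d → ZMod l) → ℝ) (V : LinkZ d → G) : ℝ :=
  ∑ x : Fin d → ZMod l, h x * energy V fun i => ((x i).val : ℤ)

/-- The energy with the profile `h` on the finite set `S`, translated by `t` in the direction `i`. -/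
def slab (i : Fin d) (S : Finset (Fin d → ℤ)) (h : (Fin d → ℤ) → ℝ) (t : ℤ) (V : LinkZ d → G) : ℝ :=
  ∑ x ∈ S, h x * energy V (x + Pi.single i t)

/-- The covariance of `F` and `H` with respect to `ν`. -/
def cov {X : Type*} [MeasurableSpace X] (ν : Measure X) (F H : X → ℝ) : ℝ :=
  ∫ V, F V * H V ∂ν - (∫ V, F V ∂ν) * ∫ V, H V ∂ν

/-- `F` depends on the variables of the finite set `T` of links only. -/
def Local (T : Finset (LinkZ d)) (F : (LinkZ d → G) → ℝ) : Prop :=
  ∀ V V' : LinkZ d → G, (∀ e ∈ T, V e = V' e) → F V = F V'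

/-- The links of the half space `{x | c ≤ x i}`: both end points of the link satisfy `c ≤ x i`. -/
def above (i : Fin d) (c : ℤ) : Set (LinkZ d) := {e | c ≤ e.1 i}

/-- The links of the half space `{x | x i ≤ c}`: both end points of the link satisfy `x i ≤ c`. -/
def below (i : Fin d) (c : ℤ) : Set (LinkZ d) :=
  {e | (if e.2 = i then e.1 i + 1 else e.1 i) ≤ c}

/-- The time correlation of the energy of a slab: the covariance at the distance `t` in the
direction `i`. -/
def corr [MeasurableSpace G] (ν : Measure (LinkZ d → G)) (i : Fin d) (S : Finset (Fin d → ℤ))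
    (h : (Fin d → ℤ) → ℝ) (t : ℕ) : ℝ := cov ν (slab i S h 0) (slab i S h t)

/-- On the torus of side `l` the fluctuations of the energy are largest at zero momentum: the variance
of the smeared energy `∑_x h x * e_x` is at most the variance of the total energy per site times
`∑_x h x ^ 2`. -/
def MaxAtZero (l : ℕ) [NeZero l] (d : ℕ) [MeasurableSpace G] (μ : Measure G) (β : ℝ) : Prop :=
  ∀ h : (Fin d → ZMod l) → ℝ, covT l μ β (smear (G := G) h) (smear h) ≤
    covT l μ β (smear (G := G) fun _ : Fin d → ZMod l => 1) (smear fun _ : Fin d → ZMod l => 1) /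
      (l : ℝ) ^ d * ∑ x, h x ^ 2

/-- The energies of the slabs `{x | x i = a}` have nonnegative time correlations, which decrease. -/
def Reflection [MeasurableSpace G] (ν : Measure (LinkZ d → G)) : Prop :=
  ∀ (i : Fin d) (a : ℤ) (S : Finset (Fin d → ℤ)) (h : (Fin d → ℤ) → ℝ), (∀ x ∈ S, x i = a) →
    (∀ t, 0 ≤ corr ν i S h t) ∧ ∀ t, corr ν i S h (t + 1) ≤ corr ν i S h t

/-- The energy density has the mean `e` everywhere, and the energy of a slab `{x | x i = a}` and any
local observable `F` become uncorrelated as the slab is shifted to infinity. -/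
structure Clustering [MeasurableSpace G] (e : ℝ) (ν : Measure (LinkZ d → G)) : Prop where
  mean : ∀ x : Fin d → ℤ, ∫ V, energy V x ∂ν = e
  cluster : ∀ (i : Fin d) (a : ℤ) (S : Finset (Fin d → ℤ)) (h : (Fin d → ℤ) → ℝ),
    (∀ x ∈ S, x i = a) → ∀ (T : Finset (LinkZ d)) (F : (LinkZ d → G) → ℝ), Continuous F →
    Local T F → Tendsto (fun t : ℕ => cov ν F (slab i S h (t : ℤ))) atTop (𝓝 0) ∧
      Tendsto (fun t : ℕ => cov ν F (slab i S h (-(t : ℤ)))) atTop (𝓝 0)

/-- The fluctuations of the energy density are bounded by `χ`: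
`∑_x cov (F, e_x) ^ 2 ≤ χ Var F` for every continuous observable `F`; the time correlations of the
energy of every slab are summable with the sum at most `χ ∑_x h x ^ 2`; for a local observable `F` at
the distance at least `t` from the slab `(4 t + 3) cov (F, slab) ^ 2 ≤ χ Var F ∑_x h x ^ 2`. -/
structure FluctuationBound [MeasurableSpace G] (χ : ℝ) (ν : Measure (LinkZ d → G)) : Prop where
  density : ∀ F : (LinkZ d → G) → ℝ, Continuous F → ∀ S : Finset (Fin d → ℤ),
    ∑ x ∈ S, cov ν F (fun V => energy V x) ^ 2 ≤ χ * cov ν F F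
  time : ∀ (i : Fin d) (a : ℤ) (S : Finset (Fin d → ℤ)) (h : (Fin d → ℤ) → ℝ),
    (∀ x ∈ S, x i = a) → ∀ T : ℕ,
      corr ν i S h 0 + 2 * ∑ t ∈ Finset.range T, corr ν i S h (t + 1) ≤ χ * ∑ x ∈ S, h x ^ 2
  half : ∀ (i : Fin d) (a : ℤ) (S : Finset (Fin d → ℤ)) (h : (Fin d → ℤ) → ℝ),
    (∀ x ∈ S, x i = a) → ∀ (t : ℕ) (T : Finset (LinkZ d)) (F : (LinkZ d → G) → ℝ), Continuous F →
    Local T F →
    ((T : Set (LinkZ d)) ⊆ above i (a + 1 + t) ∨ (T : Set (LinkZ d)) ⊆ below i (a - t)) →
      (4 * t + 3) * cov ν F (slab i S h 0) ^ 2 ≤ cov ν F F * (χ * ∑ x ∈ S, h x ^ 2)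

/-- The energy density, smeared with small test functions, is sub-Gaussian about its mean `e`, the
variance factor being as close to `χ` as desired, uniformly in the infinite volume limits. -/
def SubGaussian [MeasurableSpace G] (d : ℕ) (μ : Measure G) (β e χ : ℝ) : Prop :=
  ∀ δ > 0, ∃ η > 0, ∀ ν : Measure (LinkZ d → G), IsInfVol μ β ν →
    ∀ (S : Finset (Fin d → ℤ)) (h : (Fin d → ℤ) → ℝ), (∀ x ∈ S, |h x| ≤ η) →
      ∫ V, Real.exp (∑ x ∈ S, h x * (energy V x - e)) ∂ν ≤
        Real.exp ((χ + δ) / 2 * ∑ x ∈ S, h x ^ 2)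

end

open Pool.Agent.H906R3 Pool.Agent.W793 Pool.Agent.TH618 Pool.Agent.T2H01 Pool.Agent

variable {N n d l : ℕ} {G : Subgroup (UU N)}

/-- A Haar probability measure is invariant under right multiplications. -/
lemma right_inv {H : Type*} [Group H] [TopologicalSpace H] [IsTopologicalGroup H]
    [CompactSpace H] [MeasurableSpace H] [BorelSpace H] (μ : Measure H)
    [IsProbabilityMeasure μ] [μ.IsHaarMeasure] : μ.IsMulRightInvariant := by
  refine ⟨fun g => ?_⟩
  have h1 : IsProbabilityMeasure (Measure.map (fun x => x * g) μ) :=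
    Measure.isProbabilityMeasure_map (measurable_mul_const g).aemeasurable
  exact Measure.isHaarMeasure_eq_of_isProbabilityMeasure _ _

/-- A Haar probability measure is invariant under the inversion. -/
lemma inv_inv' {H : Type*} [Group H] [TopologicalSpace H] [IsTopologicalGroup H]
    [CompactSpace H] [MeasurableSpace H] [BorelSpace H] (μ : Measure H)
    [IsProbabilityMeasure μ] [μ.IsHaarMeasure] : μ.IsInvInvariant := by
  have hr := right_inv μ
  refine ⟨?_⟩
  have h1 : IsProbabilityMeasure μ.inv :=
    Measure.isProbabilityMeasure_map measurable_inv.aemeasurable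
  have h2 : μ.inv.IsMulLeftInvariant := inferInstance
  have h3 : μ.inv.IsHaarMeasure :=
    Measure.isHaarMeasure_of_isCompact_nonempty_interior μ.inv Set.univ isCompact_univ
      (by simp) (by simp) (by simp)
  exact Measure.isHaarMeasure_eq_of_isProbabilityMeasure _ _

section bridge

variable [CompactSpace G] [SecondCountableTopology G] [MeasurableSpace G] [BorelSpace G]
  (μ : Measure G) [IsProbabilityMeasure μ] [μ.IsHaarMeasure] (B : YM.Frame G n)

lemma expect_eq [NeZero l] (β : ℝ) (F : (LinkZ d → G) → ℝ) : expect l μ β F =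
    YM.EX μ B.toLD β (fun U : YM.Ed d l → G => F (YM.pe U)) := by
  unfold expect YM.EX YM.Zt
  simp only [one_mul]
  rfl

include B in
lemma action_cont [NeZero l] : Continuous (action : (Link d l → G) → ℝ) :=
  YM.act_cont (L := B.toLD)

lemma energy_eq (V : LinkZ d → G) (x : Fin d → ℤ) : energy V x = YM.cz B.toLD V x := rfl

lemma slab_eq (i : Fin d) (S : Finset (Fin d → ℤ)) (h : (Fin d → ℤ) → ℝ) (t : ℤ) :
    (slab i S h t : (LinkZ d → G) → ℝ) = YM.sz B.toLD i S h t := rfl

lemma cov_eq {X : Type*} [MeasurableSpace X] (ν : Measure X) (F H : X → ℝ) :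
    cov ν F H = YM.cov ν F H := rfl

lemma iv_of {β : ℝ} {ν : Measure (LinkZ d → G)} (hν : IsInfVol μ β ν) :
    YM.IV μ B.toLD β ν := by
  refine ⟨hν.prob, ?_⟩
  obtain ⟨s, hs, hlim⟩ := hν.lim
  refine ⟨s, hs, fun F hF => (hlim F hF).congr fun j => expect_eq μ B β F⟩

lemma smear_eq [NeZero l] (h : (Fin d → ZMod l) → ℝ) (U : YM.Ed d l → G) :
    smear h (YM.pe U) = ∑ x, h x * YM.ce B.toLD U x := by
  unfold smear
  refine Finset.sum_congr rfl fun x _ => ?_
  rw [energy_eq B, YM.cz_pe]
  congr 2
  funext i
  simp [YM.cs]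

include B in
lemma tor [NeZero l] {m : ℕ} [NeZero m] (hm : 2 ≤ m) (β : ℝ) : MaxAtZero (2 * m) d μ β := by
  intro h
  have := right_inv μ
  have := inv_inv' μ
  have h1 := YM.tor_var μ (L := B.toLD) hm β h
  have e1 : ∀ h : (Fin d → ZMod (2 * m)) → ℝ, covT (G := G) (2 * m) μ β (smear h) (smear h) =
      YM.CV μ B.toLD β (fun U : YM.Ed d (2 * m) → G => ∑ x, h x * YM.ce B.toLD U x)
        (fun U => ∑ x, h x * YM.ce B.toLD U x) := by
    intro h
    unfold covT YM.CV
    rw [expect_eq μ B, expect_eq μ B]
    simp only [smear_eq B]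
  have e2 : (fun U : YM.Ed d (2 * m) → G => ∑ x, (1 : ℝ) * YM.ce B.toLD U x) =
      YM.act B.toLD := by
    funext U
    simp only [one_mul]
    exact YM.ce_sum U
  rw [e1, e1, e2]
  exact h1

include B in
/-- existence of infinite volume limits -/
lemma exists_infVol (β : ℝ) : ∃ ν : Measure (LinkZ d → G), IsInfVol μ β ν := by
  have hP : ∀ j : ℕ, ∃ P : ProbabilityMeasure (LinkZ d → G),
      ∀ F : (LinkZ d → G) → ℝ, Continuous F →
        ∫ V, F V ∂(P : Measure (LinkZ d → G)) = expect (2 * (j + 1)) μ β F := by
    intro j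
    have hper : Continuous (per : (Link d (2 * (j + 1)) → G) → LinkZ d → G) :=
      continuous_pi fun e => continuous_apply _
    have hexp : Continuous fun U : Link d (2 * (j + 1)) → G =>
        Real.exp (-(β * action U)) :=
      Real.continuous_exp.comp (continuous_const.mul (action_cont B)).neg
    have hint : Integrable (fun U : Link d (2 * (j + 1)) → G =>
        Real.exp (-(β * action U))) (Measure.pi fun _ => μ) :=
      hexp.integrable_of_hasCompactSupport (HasCompactSupport.of_compactSpace _)
    have h1 := isProbabilityMeasure_tilted (f := fun U : Link d (2 * (j + 1)) → G =>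
      -(β * action U)) hint
    refine ⟨⟨((Measure.pi fun _ => μ).tilted fun U : Link d (2 * (j + 1)) → G =>
      -(β * action U)).map per, Measure.isProbabilityMeasure_map hper.aemeasurable⟩,
      fun F hF => ?_⟩
    show ∫ V, F V ∂(((Measure.pi fun _ => μ).tilted fun U : Link d (2 * (j + 1)) → G =>
      -(β * action U)).map per) = _
    rw [integral_map hper.aemeasurable hF.aestronglyMeasurable, integral_tilted]
    unfold expect
    rw [← integral_div]
    refine integral_congr_ae (Filter.Eventually.of_forall fun U => ?_)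
    simp only [smul_eq_mul]
    ring
  choose P hP using hP
  obtain ⟨ν, s, hs, hlim⟩ := CompactSpace.tendsto_subseq P
  refine ⟨ν, ⟨inferInstance, s, hs.tendsto_atTop, fun F hF => ?_⟩⟩
  have h1 := (ProbabilityMeasure.tendsto_iff_forall_integral_tendsto.1 hlim)
    (BoundedContinuousFunction.mkOfCompact ⟨F, hF⟩)
  simp only [Function.comp_apply, BoundedContinuousFunction.mkOfCompact_apply,
    ContinuousMap.coe_mk] at h1
  simpa only [hP _ F hF] using h1

end bridge

theorem result (N d : ℕ) (G : Subgroup (UU N)) (hG : IsClosed (G : Set (UU N)))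
    [MeasurableSpace G] [BorelSpace G] (μ : Measure G) [IsProbabilityMeasure μ]
    [μ.IsHaarMeasure] :
    (∀ (β : ℝ) (m : ℕ), MaxAtZero (2 * (m + 2)) d μ β) ∧
    ∃ u : ℝ → ℝ, Antitone u ∧ (∀ β, 0 ≤ u β) ∧ (∀ β, u β ≤ N * (d * (d - 1))) ∧
      (∀ β, 0 < β → u β ≤ d * (d - 1) / 2 * N ^ 2 / β) ∧
      {β | ¬ContinuousAt u β}.Countable ∧ (∀ᵐ β, DifferentiableAt ℝ u β) ∧
      ∀ β, 0 < β →
        (∃ ν : Measure (LinkZ d → G), IsInfVol μ β ν) ∧
        (∀ ν : Measure (LinkZ d → G), IsInfVol μ β ν → Reflection ν) ∧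
        (ContinuousAt u β → ∀ ν : Measure (LinkZ d → G), IsInfVol μ β ν → Clustering (u β) ν) ∧
        (DifferentiableAt ℝ u β → SubGaussian d μ β (u β) (-deriv u β) ∧
          ∀ ν : Measure (LinkZ d → G), IsInfVol μ β ν → FluctuationBound (-deriv u β) ν) := by
  have : CompactSpace G := by
    have h1 : IsCompact (G : Set (UU N)) := hG.isCompact
    exact isCompact_iff_compactSpace.1 h1
  have h00 : SecondCountableTopology (UU N) := TopologicalSpace.Subtype.secondCountableTopology _
  have : SecondCountableTopology G := TopologicalSpace.Subtype.secondCountableTopology _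
  have := right_inv μ
  have := inv_inv' μ
  obtain ⟨n, ⟨B⟩⟩ := YM.exists_frame hG
  refine ⟨fun β m => tor (l := 1) μ B (by omega) β, YM.uu μ B.toLD d, YM.uu_anti μ,
    YM.uu_nonneg μ, YM.uu_le_max μ, fun β hβ => YM.uu_weak μ hβ, ?_, YM.uu_ae μ,
    fun β hβ => ⟨exists_infVol μ B β, ?_, ?_, ?_⟩⟩
  · exact (YM.uu_anti μ (L := B.toLD) (d := d)).countable_not_continuousAt
  · intro ν hν i a S h hS
    have hI := iv_of μ B hν
    refine ⟨fun t => YM.cz2_nonneg μ hI hβ.le hS t, fun t => ?_⟩
    exact YM.cz2_anti μ hI hβ.le hS (h := h) (Nat.le_succ t)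
  · intro hu ν hν
    have hI := iv_of μ B hν
    exact ⟨hI.meanC μ hu, fun i a S h hS T F hF hT => hI.localC μ hu hβ.le hS hF hT⟩
  · intro hu
    refine ⟨fun δ hδ => ?_, fun ν hν => ⟨fun F hF S => (iv_of μ B hν).bessel μ hu hF S,
      fun i a S h hS T => (iv_of μ B hν).slab μ hu hβ.le hS T, ?_⟩⟩
    · obtain ⟨η, hη, hh⟩ := YM.IV.subg' μ (L := B.toLD) (d := d) hu hδ
      exact ⟨η, hη, fun ν hν S h hh' => hh ν (iv_of μ B hν) S h hh'⟩
    · intro i a S h hS t T F hF hT hsub
      rcases hsub with hsub | hsub
      · exact (iv_of μ B hν).half μ hu hβ.le hS hF t (fun e he => hsub he) hT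
      · exact (iv_of μ B hν).half' μ hu hβ.le hS hF t (fun e he => hsub he) hT

end

end Pool.Agent.Results.MP_7f377f_mp.EnergyCorrelations
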