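import Pool.Agent.T2H01.QI.Asm

/-!
# MP_832dec_an, Q1: quantitative Talenti comparison for the planar Robin problem

For every `β, m > 0` there is `C > 0` with `‖v - u♯‖_∞ ≥ C α(Ω)^p` for all bounded Lipschitz open sets
`Ω` of area `m`, for every exponent `p ≥ 6/5`. The case `p = 2` is Q1; because of `p = 6/5 < 2` the
exponent `2` is not optimal.
-/

set_option autoImplicit false

noncomputable section

open MeasureTheory Metric Set Filter Topology
open scoped NNReal ENNReal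

namespace Pool.Agent.Results.MP_832dec_an.ExponentSixFifths

open Pool.Agent.T2H01.QI

theorem asym_nonneg (Ω : Set E2) : 0 ≤ asym Ω :=
  Real.iInf_nonneg fun _ => div_nonneg measureReal_nonneg measureReal_nonneg

theorem asym_le_two {Ω : Set E2} (hΩ : IsLip Ω) (hm : 0 < volume.real Ω) : asym Ω ≤ 2 := by
  have hfin : volume Ω ≠ ⊤ := hΩ.2.1.measure_lt_top.ne
  have hvol : volume.real (ball (0 : E2) (rad Ω)) = volume.real Ω := by
    have h0 : (0 : ℝ) ≤ rad Ω := Real.sqrt_nonneg _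
    rw [measureReal_def, EuclideanSpace.volume_ball_fin_two, ENNReal.toReal_mul, ENNReal.toReal_pow,
      ENNReal.toReal_ofReal h0, ENNReal.toReal_ofReal Real.pi_pos.le, rad,
      Real.sq_sqrt (by positivity)]
    field_simp
  refine (ciInf_le ⟨0, ?_⟩ (0 : E2)).trans ?_
  · rintro _ ⟨x, rfl⟩
    exact div_nonneg measureReal_nonneg measureReal_nonneg
  · rw [div_le_iff₀ (by rw [hvol]; exact hm)]
    have h1 : volume.real (symmDiff Ω (ball (0 : E2) (rad Ω))) ≤
        volume.real (Ω ∪ ball (0 : E2) (rad Ω)) :=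
      measureReal_mono (symmDiff_le_sup) (((measure_union_le _ _).trans_lt
        (ENNReal.add_lt_top.2 ⟨hfin.lt_top, measure_ball_lt_top⟩)).ne)
    have h2 := measureReal_union_le (μ := volume) Ω (ball (0 : E2) (rad Ω))
    rw [hvol] at h2 ⊢
    linarith

/-- **Answer to Q1, with the exponent `6/5` (and every larger one) in place of `2`.** -/
theorem result :
    (∀ β R : ℝ, 0 < β → 0 < R → ContDiff ℝ (⊤ : ℕ∞) (vsol β R) ∧
      (∀ x, ∑ i : Fin 2, fderiv ℝ (fun y => fderiv ℝ (vsol β R) y (EuclideanSpace.single i 1)) x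
        (EuclideanSpace.single i 1) = -1) ∧
      ∀ x : E2, ‖x‖ = R → fderiv ℝ (vsol β R) x (R⁻¹ • x) + β * vsol β R x = 0) ∧
    ∀ β m p : ℝ, 0 < β → 0 < m → 6 / 5 ≤ p → ∃ C : ℝ, 0 < C ∧ ∀ (Ω : Set E2) (u : E2 → ℝ), IsLip Ω →
      volume.real Ω = m → IsRobin Ω β u →
        ENNReal.ofReal (C * asym Ω ^ p) ≤
          eLpNorm (fun x => vsol β (rad Ω) x - usharp Ω u x) ⊤ (volume.restrict (ball 0 (rad Ω))) := by
  refine ⟨Asm.aVSC, fun β m p hβ hm hp => ?_⟩
  obtain ⟨C, hC, h⟩ := Asm.aALL β m hβ hm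
  refine ⟨C / 2 ^ (p - 6 / 5), by positivity, fun Ω u hΩ hv hu => le_trans ?_ (h Ω u hΩ hv hu)⟩
  refine ENNReal.ofReal_le_ofReal ?_
  have h0 := asym_nonneg Ω
  have h2 := asym_le_two hΩ (by rw [hv]; exact hm)
  rcases h0.eq_or_lt with h0' | h0'
  · rw [← h0', Real.zero_rpow (by linarith), Real.zero_rpow (by norm_num)]
    simp
  · have e : asym Ω ^ p = asym Ω ^ (6 / 5 : ℝ) * asym Ω ^ (p - 6 / 5) := by
      rw [← Real.rpow_add h0']
      congr 1
      ring
    have h3 : asym Ω ^ (p - 6 / 5) ≤ 2 ^ (p - 6 / 5) := Real.rpow_le_rpow h0 h2 (by linarith)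
    rw [e, div_mul_eq_mul_div, div_le_iff₀ (by positivity)]
    have h4 : 0 ≤ C * asym Ω ^ (6 / 5 : ℝ) := by positivity
    nlinarith [mul_le_mul_of_nonneg_left h3 h4]

end Pool.Agent.Results.MP_832dec_an.ExponentSixFifths
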